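import Pool.Agent.NGP.Stmts
import Pool.Agent.Helper4_PQP.Srb

/-!
# Squad NGP, row SRI: large perturbations away from a critical point, invariant functions
-/

set_option autoImplicit false

open scoped InnerProductSpace Topology ContDiff Manifold
open MeasureTheory Filter Set

noncomputable section

namespace Pool.Agent.NGP.H29

open Pool.Agent.Helper42_Paneitz Pool.Agent.Helper82_Vir Pool.Agent.FLX Pool.Agent.PQP
open Pool.Agent.NGP Pool.Agent.PQP.H4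

/-- SRI -/
theorem sri (exi : ExiStmt) (tai : TaiStmt) : SriStmt := by
  intro P Q₀ R p U hQ hR hQi hRi hpP hnd hQp hU hRU hI
  obtain ⟨-, -, -, -, -, -, -, -, hReg, hSlv, -⟩ := H54.rows_all
  set I : ℝ := ∫ z, R z / (1 - ⟪(p : E5), (z : E5)⟫_ℝ) ^ 4 ∂sig with hIdef
  obtain ⟨T₀, C, hC0, hsym, hT0, hTP₀, hinj, htr, hT⟩ := tai P Q₀ p hQ hQi hpP hnd
  obtain ⟨r, hr, hrU⟩ := Metric.mem_nhds_iff.1 hU
  obtain ⟨ρ, hρ, hρ1, hρr⟩ : ∃ ρ : ℝ, 0 < ρ ∧ ρ ≤ 1 ∧ ρ ≤ r :=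
    ⟨min r 1, lt_min hr one_pos, min_le_right _ _, min_le_left _ _⟩
  have hRn : ∀ z : S4, ‖(z : E5) - (p : E5)‖ < ρ → R z = 0 := fun z hz => hRU z (hrU (by
    rw [Metric.mem_ball, Subtype.dist_eq, dist_eq_norm]
    exact lt_of_lt_of_le hz hρr))
  obtain ⟨c, hc0, hcQ⟩ : ∃ c : ℝ, 0 < c ∧ c * Q₀ p = 6 :=
    ⟨6 / Q₀ p, by positivity, by field_simp⟩
  obtain ⟨T, hTdef⟩ : ∃ T : E5 →L[ℝ] E5, ∀ v, T v = (-(c / 2)) • T₀ v :=
    ⟨(-(c / 2)) • T₀, fun v => rfl⟩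
  have hcn : -(c / 2) ≠ 0 := by
    have := hc0.ne'
    intro h
    apply this
    linarith
  have hgeo : Geo0 p T ρ := by
    refine ⟨hρ, hρ1, fun u v => ?_, ?_⟩
    · rw [hTdef, hTdef, real_inner_smul_left, real_inner_smul_right, hsym]
    · rw [hTdef, hT0, smul_zero]
  have hTP : ∀ v ∈ P, T v ∈ P := fun v hv => by
    rw [hTdef]
    exact P.smul_mem _ (hTP₀ v hv)
  have hTi : ∀ v ∈ P, ⟪(p : E5), v⟫_ℝ = 0 → T v = 0 → v = 0 := fun v hvP hv hTv => by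
    rw [hTdef] at hTv
    exact hinj v hvP hv ((smul_eq_zero.1 hTv).resolve_left hcn)
  have htrT : tr5 T = -(c / 2) * sphLaplacian Q₀ p := by
    rw [← htr]
    unfold tr5
    rw [Finset.mul_sum]
    refine Finset.sum_congr rfl fun i _ => ?_
    rw [hTdef, real_inner_smul_left]
  have hΔ : sphLaplacian Q₀ p ≠ 0 := fun h => by
    rw [h, zero_mul] at hI; exact lt_irrefl _ hI
  have hI0 : I ≠ 0 := fun h => by
    rw [h, mul_zero] at hI; exact lt_irrefl _ hI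
  have hIp : 0 < |I| := abs_pos.2 hI0
  have htr0 : tr5 T ≠ 0 := by
    rw [htrT]; exact mul_ne_zero hcn hΔ
  obtain ⟨s₀, hs₀, hex⟩ := exi P p T ρ hgeo hpP hTP hTi htr0
  have hQc : Continuous Q₀ := continuous_of_sm hQ
  have hRc : Continuous R := continuous_of_sm hR
  obtain ⟨B₁, hB₁, hQB⟩ := exists_bound hQc
  obtain ⟨B₂, hB₂, hRB⟩ := exists_bound hRc
  obtain ⟨G₀, hG₀⟩ : ∃ G₀ : ℝ, G₀ = GG p ρ (fun z => c * Q₀ z - 6) := ⟨_, rfl⟩
  have hGG : ∀ t : ℝ, GG p ρ (fun z => c * (Q₀ z + t * R z) - 6) = G₀ + c * t * I := by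
    intro t
    have e : (fun z => c * (Q₀ z + t * R z) - 6) = fun z => (c * Q₀ z - 6) + (c * t) * R z := by
      funext z; ring
    rw [e, GG_split p hρ ((continuous_const.fun_mul hQc).fun_sub continuous_const) hRc hRn,
      ← hG₀]
  obtain ⟨M₁, hM₁⟩ : ∃ M₁ : ℝ, M₁ = c * B₁ + c * B₂ + 6 := ⟨_, rfl⟩
  have hM₁0 : 0 < M₁ := by rw [hM₁]; positivity
  have hcI : 0 < c * |I| := mul_pos hc0 hIp
  obtain ⟨Kk, hK1, hK2, hK3⟩ : ∃ Kk : ℝ, 1 ≤ Kk ∧ c * C ≤ Kk ∧ 2 * M₁ / (c * |I|) ≤ Kk :=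
    ⟨max (max 1 (c * C)) (2 * M₁ / (c * |I|)), (le_max_left _ _).trans (le_max_left _ _),
      (le_max_right _ _).trans (le_max_left _ _), le_max_right _ _⟩
  have hK0 : 0 ≤ Kk := zero_le_one.trans hK1
  obtain ⟨N, hN1, hN2⟩ : ∃ N : ℝ, s₀⁻¹ ^ 2 ≤ N ∧ (Kk ^ 24) ^ 2 ≤ N :=
    ⟨max _ _, le_max_left _ _, le_max_right _ _⟩
  refine ⟨max 1 (max (2 * |G₀| / (c * |I|)) (2 * N / (c * |I|))), fun t ht => ?_⟩
  have ht1 : 1 ≤ t := (le_max_left _ _).trans ht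
  have ht2 : 2 * |G₀| ≤ t * (c * |I|) := by
    rw [← div_le_iff₀ hcI]
    exact ((le_max_left _ _).trans (le_max_right _ _)).trans ht
  have ht3 : 2 * N ≤ t * (c * |I|) := by
    rw [← div_le_iff₀ hcI]
    exact ((le_max_right _ _).trans (le_max_right _ _)).trans ht
  have ht0 : 0 < t := lt_of_lt_of_le one_pos ht1
  have hpos : 0 < t * (c * |I|) := mul_pos ht0 hcI
  -- lower bound of `|GG|`
  have habs : |c * t * I| = t * (c * |I|) := by
    rw [abs_mul, abs_of_pos (mul_pos hc0 ht0)]; ring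
  have hGlow : t * (c * |I|) - |G₀| ≤ |G₀ + c * t * I| := by
    rw [← habs]
    have h1 := abs_sub_abs_le_abs_sub (c * t * I) (-G₀)
    rw [abs_neg] at h1
    have e : c * t * I - -G₀ = G₀ + c * t * I := by ring
    rwa [e] at h1
  obtain ⟨G, hG⟩ : ∃ G : ℝ, G = |G₀ + c * t * I| := ⟨_, rfl⟩
  have hG1 : t * (c * |I|) / 2 ≤ G := by rw [hG]; linarith
  have hG0 : 0 < G := lt_of_lt_of_le (by positivity) hG1
  have hGN : N ≤ G := by linarith
  have hsq : 0 < √G := Real.sqrt_pos.2 hG0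
  have h1s : s₀⁻¹ ≤ √G := Real.le_sqrt_of_sq_le (hN1.trans hGN)
  have h2s : Kk ^ 24 ≤ √G := Real.le_sqrt_of_sq_le (hN2.trans hGN)
  obtain ⟨s, hs⟩ : ∃ s : ℝ, s = (√G)⁻¹ := ⟨_, rfl⟩
  have hs0 : 0 < s := by rw [hs]; exact inv_pos.2 hsq
  have hss₀ : s ≤ s₀ := by
    rw [hs]
    exact inv_le_of_inv_le₀ hs₀ h1s
  have hpow : Kk ≤ s ^ (-(1 / 24) : ℝ) := by
    rw [Real.rpow_neg hs0.le, ← Real.inv_rpow hs0.le, hs, inv_inv]
    have h1 : (Kk ^ 24) ^ ((1 : ℝ) / 24) ≤ (√G) ^ ((1 : ℝ) / 24) :=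
      Real.rpow_le_rpow (by positivity) h2s (by norm_num)
    have h2 : (Kk ^ 24) ^ ((1 : ℝ) / 24) = Kk := by
      rw [← Real.rpow_natCast, ← Real.rpow_mul hK0]
      norm_num
    rw [h2] at h1
    exact h1
  obtain ⟨q, hq⟩ : ∃ q : S4 → ℝ, q = fun z => c * (Q₀ z + t * R z) - 6 := ⟨_, rfl⟩
  have hqG : |GG p ρ q| = G := by rw [hq, hGG t, hG]
  have hcon : Con p T ρ q 1 (c * C) (M₁ * t) := by
    refine ⟨?_, le_refl _, mul_nonneg hc0.le hC0, mul_nonneg hM₁0.le ht0.le, ?_, ?_⟩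
    · rw [hq]
      exact (continuous_const.fun_mul (hQc.fun_add (continuous_const.fun_mul hRc))).fun_sub
        continuous_const
    · intro z hz
      have e : q z + 1 * ⟪T (z : E5), (z : E5)⟫_ℝ =
          c * (Q₀ z - Q₀ p - 1 / 2 * ⟪T₀ (z : E5), (z : E5)⟫_ℝ) := by
        rw [hq]
        show c * (Q₀ z + t * R z) - 6 + 1 * ⟪T (z : E5), (z : E5)⟫_ℝ = _
        rw [hRn z hz, hTdef, real_inner_smul_left, ← hcQ]
        ring
      rw [e, abs_mul, abs_of_pos hc0, mul_assoc]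
      exact mul_le_mul_of_nonneg_left (hT z) hc0.le
    · intro z _
      rw [hq]
      show |c * (Q₀ z + t * R z) - 6| ≤ M₁ * t
      have a1 := abs_le.1 (hQB z)
      have a2 := abs_le.1 (hRB z)
      have b1 : |c * (Q₀ z + t * R z) - 6| ≤ c * (B₁ + t * B₂) + 6 := by
        rw [abs_le]
        have c1 : t * R z ≤ t * B₂ := mul_le_mul_of_nonneg_left a2.2 ht0.le
        have c2 : t * (-B₂) ≤ t * R z := mul_le_mul_of_nonneg_left a2.1 ht0.le
        have c3 : c * (Q₀ z + t * R z) ≤ c * (B₁ + t * B₂) :=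
          mul_le_mul_of_nonneg_left (by linarith) hc0.le
        have c4 : c * (-(B₁ + t * B₂)) ≤ c * (Q₀ z + t * R z) :=
          mul_le_mul_of_nonneg_left (by linarith) hc0.le
        constructor
        · linarith
        · linarith
      refine b1.trans ?_
      rw [hM₁]
      have d1 : c * B₁ ≤ c * B₁ * t := le_mul_of_one_le_right (mul_nonneg hc0.le hB₁) ht1
      nlinarith
  have hsign : 0 < tr5 T * GG p ρ q := by
    rw [hq, hGG t, htrT]
    have hD : 0 < |sphLaplacian Q₀ p| := abs_pos.2 hΔ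
    have e1 : -(sphLaplacian Q₀ p * I) = |sphLaplacian Q₀ p| * |I| := by
      rw [← abs_mul, abs_of_neg hI]
    have e2 : sphLaplacian Q₀ p * G₀ ≤ |sphLaplacian Q₀ p| * |G₀| := by
      rw [← abs_mul]; exact le_abs_self _
    have e3 : |sphLaplacian Q₀ p| * |G₀| < |sphLaplacian Q₀ p| * (t * (c * |I|)) := by
      apply mul_lt_mul_of_pos_left _ hD
      linarith
    have e4 : -(c / 2) * sphLaplacian Q₀ p * (G₀ + c * t * I) =
        c / 2 * (|sphLaplacian Q₀ p| * (t * (c * |I|)) - sphLaplacian Q₀ p * G₀) := by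
      have : |sphLaplacian Q₀ p| * (t * (c * |I|)) = t * c * (|sphLaplacian Q₀ p| * |I|) := by ring
      rw [this, ← e1]
      ring
    rw [e4]
    have : 0 < |sphLaplacian Q₀ p| * (t * (c * |I|)) - sphLaplacian Q₀ p * G₀ := by linarith
    positivity
  have hk : s ^ 2 * |GG p ρ q| = 1 := by
    rw [hqG, hs, inv_pow, Real.sq_sqrt hG0.le, inv_mul_cancel₀ hG0.ne']
  have hMle : M₁ * t ≤ s ^ (-(1 / 24) : ℝ) * |GG p ρ q| := by
    rw [hqG]
    have g1 : 2 * M₁ ≤ Kk * (c * |I|) := (div_le_iff₀ hcI).1 hK3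
    calc M₁ * t = (2 * M₁) * (t / 2) := by ring
      _ ≤ (Kk * (c * |I|)) * (t / 2) := by gcongr
      _ = Kk * (t * (c * |I|) / 2) := by ring
      _ ≤ s ^ (-(1 / 24) : ℝ) * G := by
          apply mul_le_mul hpow hG1 (by positivity) (hK0.trans hpow)
  have hqi : Inv P q := by
    intro x
    rw [hq]
    show c * (Q₀ (act P.reflection x) + t * R (act P.reflection x)) - 6 = c * (Q₀ x + t * R x) - 6
    rw [hQi x, hRi x]
  obtain ⟨w, hw⟩ := hex q 1 (c * C) (M₁ * t) s hcon hqi hs0 hss₀ hsign hk (hK1.trans hpow)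
    (hK2.trans hpow) hMle
  have hsm : Sm (fun x => Q₀ x + t * R x) := hQ.add (hR.smul t)
  have hw' : IE (fun x => c * (Q₀ x + t * R x)) w := by
    have e : (fun x => 6 + q x) = fun x => c * (Q₀ x + t * R x) := by
      rw [hq]; funext x; ring
    rwa [e] at hw
  obtain ⟨hu, hP⟩ := H54.scaleE (Q := fun x => Q₀ x + t * R x) hc0
    (H54.finE hReg hSlv (hsm.smul c) hw')
  exact ⟨contMDiff_of_sm hsm, _, contMDiff_of_sm hu, hP⟩

end Pool.Agent.NGP.H29
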