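import Pool.Agent.NGP.Stmts

/-!
# Squad NGP, row ZNE: zonal functions with a far negative part, existence
-/

set_option autoImplicit false

open scoped InnerProductSpace Topology ContDiff Manifold
open MeasureTheory Filter Set

noncomputable section

namespace Pool.Agent.NGP.H29

open Pool.Agent.Helper42_Paneitz Pool.Agent.Helper82_Vir Pool.Agent.FLX Pool.Agent.PQP
open Pool.Agent.NGP

theorem right_neg {g : ℝ → ℝ} {a b : ℝ} (hg : Continuous g) (h : g a < 0) (hab : a < b) :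
    ∃ d : ℝ, a < d ∧ d ≤ b ∧ ∀ x ∈ Icc a d, g x < 0 := by
  have hev : ∀ᶠ x in 𝓝 a, g x < 0 := hg.continuousAt.eventually (gt_mem_nhds h)
  obtain ⟨ε, hε, hb⟩ := Metric.eventually_nhds_iff.1 hev
  refine ⟨min (a + ε / 2) b, lt_min (by linarith) hab, min_le_right _ _, fun x hx => hb ?_⟩
  have h1 := hx.2.trans (min_le_left _ _)
  rw [Real.dist_eq, abs_lt]
  exact ⟨by linarith [hx.1], by linarith⟩

theorem left_pos {g : ℝ → ℝ} {a b : ℝ} (hg : Continuous g) (h : 0 < g b) (hab : a < b) :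
    ∃ d : ℝ, a ≤ d ∧ d < b ∧ ∀ x ∈ Icc d b, 0 < g x := by
  have hev : ∀ᶠ x in 𝓝 b, 0 < g x := hg.continuousAt.eventually (lt_mem_nhds h)
  obtain ⟨ε, hε, hb⟩ := Metric.eventually_nhds_iff.1 hev
  refine ⟨max (b - ε / 2) a, le_max_right _ _, max_lt (by linarith) hab, fun x hx => hb ?_⟩
  have h1 := (le_max_left _ _).trans hx.1
  rw [Real.dist_eq, abs_lt]
  exact ⟨by linarith, by linarith [hx.2]⟩

/-- one variable calculus: a nondegenerate minimum below `1` -/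
theorem exists_min_point {q : ℝ → ℝ} {c s₁ : ℝ} (hq : ContDiff ℝ ∞ q) (h1 : 0 < deriv q 1)
    (hc : c < s₁) (hs : s₁ < 1) (h0 : deriv q s₁ = 0)
    (hnd : ∀ s : ℝ, c < s → s < 1 → deriv q s = 0 → deriv (deriv q) s ≠ 0) :
    ∃ s : ℝ, c < s ∧ s < 1 ∧ deriv q s = 0 ∧ 0 < deriv (deriv q) s := by
  have hq0 : Continuous q := hq.continuous
  have hd1 : ContDiff ℝ ∞ (deriv q) := ((contDiff_infty_iff_deriv (𝕜 := ℝ)).1 hq).2
  have hd2 : ContDiff ℝ ∞ (deriv (deriv q)) := ((contDiff_infty_iff_deriv (𝕜 := ℝ)).1 hd1).2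
  obtain ⟨s₂, hs₂, hmin⟩ := isCompact_Icc.exists_isMinOn (nonempty_Icc.2 hs.le)
    (hq0.continuousOn (s := Icc s₁ 1))
  have hm : ∀ x ∈ Icc s₁ 1, q s₂ ≤ q x := fun x hx => hmin hx
  have hne : s₂ < 1 := by
    refine lt_of_le_of_ne hs₂.2 fun he => ?_
    obtain ⟨d, hd, hdl, hpos⟩ := left_pos hd1.continuous h1 hs
    have hmono : StrictMonoOn q (Icc d 1) :=
      strictMonoOn_of_deriv_pos (convex_Icc d 1) hq0.continuousOn fun x hx =>
        hpos x (interior_subset hx)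
    have h3 := hmono (left_mem_Icc.2 hdl.le) (right_mem_Icc.2 hdl.le) hdl
    have h4 := hm d ⟨hd, hdl.le⟩
    rw [he] at h4
    linarith
  have hcs : c < s₂ := lt_of_lt_of_le hc hs₂.1
  have hz : deriv q s₂ = 0 := by
    rcases eq_or_lt_of_le hs₂.1 with he | hlt
    · rw [← he]; exact h0
    · exact IsLocalMin.deriv_eq_zero
        (by filter_upwards [Icc_mem_nhds hlt hne] with x hx using hm x hx)
  refine ⟨s₂, hcs, hne, hz, lt_of_le_of_ne ?_ (hnd s₂ hcs hne hz).symm⟩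
  by_contra hneg
  obtain ⟨d, hd, hdl, hn⟩ := right_neg hd2.continuous (not_le.1 hneg) hne
  have hanti : StrictAntiOn (deriv q) (Icc s₂ d) :=
    strictAntiOn_of_deriv_neg (convex_Icc s₂ d) hd1.continuous.continuousOn fun x hx =>
      hn x (interior_subset hx)
  have hanti2 : StrictAntiOn q (Icc s₂ d) := by
    refine strictAntiOn_of_deriv_neg (convex_Icc s₂ d) hq0.continuousOn fun x hx => ?_
    rw [interior_Icc] at hx
    have h5 := hanti (left_mem_Icc.2 hd.le) (Ioo_subset_Icc_self hx) hx.1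
    rwa [hz] at h5
  have h3 := hanti2 (left_mem_Icc.2 hd.le) (right_mem_Icc.2 hd.le) hd
  have h4 := hm d ⟨hs₂.1.trans hd.le, hdl⟩
  linarith

/-- the far integral is negative -/
theorem far_neg {R : S4 → ℝ} (hR : Continuous R) (p : S4) {U : Set S4} (hU : IsOpen U)
    (hp : p ∈ U) (h0 : ∀ x ∈ U, R x = 0) (hle : ∀ x, R x ≤ 0) {x₀ : S4} (hx₀ : R x₀ ≠ 0) :
    ∫ z, R z / (1 - ⟪(p : E5), (z : E5)⟫_ℝ) ^ 4 ∂sig < 0 := by
  have hden : ∀ z : S4, z ≠ p → 0 < 1 - ⟪(p : E5), (z : E5)⟫_ℝ := fun z hz => by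
    have h1 := dist_sq p z
    have h2 : 0 < dist z p := dist_pos.2 hz
    have h3 : 0 < dist z p ^ 2 := by positivity
    linarith
  have hcont : Continuous fun z : S4 => -(R z / (1 - ⟪(p : E5), (z : E5)⟫_ℝ) ^ 4) := by
    apply Continuous.neg
    rw [continuous_iff_continuousAt]
    intro z
    by_cases hz : z ∈ U
    · have he : (fun z : S4 => R z / (1 - ⟪(p : E5), (z : E5)⟫_ℝ) ^ 4) =ᶠ[𝓝 z] fun _ => (0 : ℝ) := by
        filter_upwards [hU.mem_nhds hz] with x hx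
        rw [h0 x hx, zero_div]
      exact continuousAt_const.congr he.symm
    · have hzp : z ≠ p := fun h => hz (h ▸ hp)
      refine hR.continuousAt.div ?_ (pow_pos (hden z hzp) 4).ne'
      exact ((continuous_const.sub
        (continuous_const.inner continuous_subtype_val)).pow 4).continuousAt
  have hx₀p : x₀ ≠ p := fun h => hx₀ (by rw [h]; exact h0 p hp)
  have hpos := single_pos hcont (fun z => by
    have h1 : R z / (1 - ⟪(p : E5), (z : E5)⟫_ℝ) ^ 4 ≤ 0 :=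
      div_nonpos_of_nonpos_of_nonneg (hle z) (by positivity)
    linarith) (x₀ := x₀) (by
    have h1 : R x₀ / (1 - ⟪(p : E5), (x₀ : E5)⟫_ℝ) ^ 4 < 0 :=
      div_neg_of_neg_of_pos (lt_of_le_of_ne (hle x₀) hx₀) (pow_pos (hden x₀ hx₀p) 4)
    linarith)
  rw [integral_neg] at hpos
  linarith

theorem cir_four (φ : ℝ) : (cir φ : E5) 4 = Real.cos φ := by
  show (Real.cos φ • ee 4 + Real.sin φ • ee 0) 4 = Real.cos φ
  rw [PiLp.add_apply, PiLp.smul_apply, PiLp.smul_apply, ee_apply, ee_apply, if_pos rfl,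
    if_neg (by decide)]
  simp

theorem pt_four : ((pt 4 : S4) : E5) 4 = 1 := by
  show (ee 4) 4 = 1
  rw [ee_apply, if_pos rfl]

/-- ZNE -/
theorem zne (sri : SriStmt) (znl : ZnlStmt) : ZneStmt := by
  intro q c R hq hc1 hc2 hpos h1 hnd hex hR hRi hle h0 hne
  obtain ⟨hS, hI, hA, hB⟩ := znl q hq
  obtain ⟨x₀, hx₀⟩ := hne
  have hUo : IsOpen {x : S4 | c < (x : E5) 4} := by
    refine isOpen_lt continuous_const ?_
    have e : (fun x : S4 => (x : E5) 4) = fun x : S4 => ⟪(x : E5), ee 4⟫_ℝ := by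
      funext x; rw [inner_ee]
    rw [e]
    exact continuous_subtype_val.inner continuous_const
  obtain ⟨p, hpP, hpN, hpΔ, hpc, hpQ⟩ : ∃ p : S4, (p : E5) ∈ P2 ∧
      NdP P2 (fun x : S4 => q ((x : E5) 4)) p ∧
      0 < sphLaplacian (fun x : S4 => q ((x : E5) 4)) p ∧ c < (p : E5) 4 ∧
      0 < q ((p : E5) 4) := by
    rcases lt_or_gt_of_ne h1 with hl | hg
    · obtain ⟨a1, a2, a3⟩ := hB hl
      refine ⟨pt 4, a1, a2, a3, ?_, ?_⟩
      · rw [pt_four]; exact hc2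
      · rw [pt_four]; exact hpos 1 hc2 le_rfl
    · obtain ⟨s₁, hs₁, hs₁', hs₁0⟩ := hex
      obtain ⟨s, hs, hs', hs0, hs2⟩ := exists_min_point hq hg hs₁ hs₁' hs₁0 hnd
      have hcos : Real.cos (Real.arccos s) = s := Real.cos_arccos (by linarith) hs'.le
      obtain ⟨a1, a2, a3⟩ := hA (Real.arccos s) (Real.arccos_pos.2 hs')
        (Real.arccos_lt_pi.2 (by linarith)) (by rw [hcos]; exact hs0) (by rw [hcos]; exact hs2)
      refine ⟨cir (Real.arccos s), a1, a2, a3, ?_, ?_⟩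
      · rw [cir_four, hcos]; exact hs
      · rw [cir_four, hcos]; exact hpos s hs hs'.le
  have hUR : ∀ x ∈ {x : S4 | c < (x : E5) 4}, R x = 0 := fun x hx => h0 x (le_of_lt hx)
  refine sri P2 (fun x : S4 => q ((x : E5) 4)) R p {x : S4 | c < (x : E5) 4} hS hR hI hRi hpP hpN
    hpQ (hUo.mem_nhds hpc) hUR ?_
  exact mul_neg_of_pos_of_neg hpΔ
    (far_neg (continuous_of_sm hR) p hUo hpc hUR hle hx₀)

end Pool.Agent.NGP.H29
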